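import Pool.Agent.W770.KP.Stm

set_option autoImplicit false

open scoped Classical

namespace Pool.Agent.W576.KP

open Pool.Agent.W770.KP

theorem exists_equiv {F E : Type} [Field F] [AddCommGroup E] [Module F E] [FiniteDimensional F E]
    {v v' : E} (hv : v ≠ 0) (hv' : v' ≠ 0) : ∃ g : E ≃ₗ[F] E, g v = v' := by
  let f := (LinearEquiv.toSpanNonzeroSingleton F E v hv).symm ≪≫ₗ
    (LinearEquiv.toSpanNonzeroSingleton F E v' hv')
  obtain ⟨g, hg⟩ := Submodule.exists_linearEquiv_restrict_eq f
  refine ⟨g, ?_⟩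
  have h1 := hg ⟨v, Submodule.mem_span_singleton_self v⟩
  have h2 : (LinearEquiv.toSpanNonzeroSingleton F E v hv).symm
      ⟨v, Submodule.mem_span_singleton_self v⟩ = 1 := by
    rw [LinearEquiv.symm_apply_eq]
    exact (LinearEquiv.toSpanNonzeroSingleton_one F E v hv).symm
  have h3 : f ⟨v, Submodule.mem_span_singleton_self v⟩ =
      (LinearEquiv.toSpanNonzeroSingleton F E v' hv') 1 := by
    show (LinearEquiv.toSpanNonzeroSingleton F E v' hv')
      ((LinearEquiv.toSpanNonzeroSingleton F E v hv).symm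
      ⟨v, Submodule.mem_span_singleton_self v⟩) = _
    rw [h2]
  rw [h3, LinearEquiv.toSpanNonzeroSingleton_one] at h1
  exact h1.symm

theorem cnt_eq (F E : Type) [Field F] [Fintype F] [AddCommGroup E] [Module F E] [Fintype E]
    (k : ℕ) {v v' : E} (hv : v ≠ 0) (hv' : v' ≠ 0) :
    ((Gr F E k).filter (fun W => v ∈ W)).card = ((Gr F E k).filter (fun W => v' ∈ W)).card := by
  obtain ⟨g, hg⟩ := exists_equiv (F := F) hv hv'
  apply Finset.card_bij (fun W _ => W.map (g : E →ₗ[F] E))
  · intro W hW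
    rw [Finset.mem_filter] at hW ⊢
    obtain ⟨h1, h2⟩ := hW
    unfold Gr at h1 ⊢
    rw [Finset.mem_filter] at h1 ⊢
    refine ⟨⟨Finset.mem_univ _, ?_⟩, ?_⟩
    · rw [LinearEquiv.finrank_map_eq]
      exact h1.2
    · exact ⟨v, h2, hg⟩
  · intro W1 _ W2 _ h
    exact Submodule.map_injective_of_injective g.injective h
  · intro W hW
    rw [Finset.mem_filter] at hW
    obtain ⟨h1, h2⟩ := hW
    unfold Gr at h1
    rw [Finset.mem_filter] at h1
    refine ⟨W.map (g.symm : E →ₗ[F] E), ?_, ?_⟩
    · rw [Finset.mem_filter]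
      refine ⟨?_, ?_⟩
      · unfold Gr
        rw [Finset.mem_filter]
        refine ⟨Finset.mem_univ _, ?_⟩
        rw [LinearEquiv.finrank_map_eq]
        exact h1.2
      · refine ⟨v', h2, ?_⟩
        show g.symm v' = v
        rw [← hg, LinearEquiv.symm_apply_apply]
    · ext x
      constructor
      · rintro ⟨y, ⟨z, hz, rfl⟩, rfl⟩
        show g (g.symm z) ∈ W
        rw [LinearEquiv.apply_symm_apply]
        exact hz
      · intro hx
        refine ⟨g.symm x, ⟨x, hx, rfl⟩, ?_⟩
        show g (g.symm x) = x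
        rw [LinearEquiv.apply_symm_apply]

theorem card_ne (F E : Type) [Field F] [Fintype F] [AddCommGroup E] [Module F E] [Fintype E]
    (W : Submodule F E) :
    (((Finset.univ : Finset E).filter (fun u => u ≠ 0 ∧ u ∈ W)).card : ℝ) =
      (Fintype.card F : ℝ) ^ (Module.finrank F W) - 1 := by
  have h1 : (Finset.univ : Finset E).filter (fun u => u ∈ W) =
      insert 0 ((Finset.univ : Finset E).filter (fun u => u ≠ 0 ∧ u ∈ W)) := by
    ext u
    simp only [Finset.mem_filter, Finset.mem_univ, true_and, Finset.mem_insert]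
    by_cases hu : u = 0
    · simp [hu]
    · simp [hu]
  have h2 : ((Finset.univ : Finset E).filter (fun u => u ∈ W)).card =
      ((Finset.univ : Finset E).filter (fun u => u ≠ 0 ∧ u ∈ W)).card + 1 := by
    rw [h1, Finset.card_insert_of_notMem]
    simp
  have h3 : ((Finset.univ : Finset E).filter (fun u => u ∈ W)).card = Fintype.card W := by
    rw [Fintype.card_subtype]
  have h4 : Fintype.card W = Fintype.card F ^ (Module.finrank F W) := Module.card_eq_pow_finrank
  rw [h3, h4] at h2
  have h5 : ((Fintype.card F ^ (Module.finrank F W) : ℕ) : ℝ) =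
    ((((Finset.univ : Finset E).filter (fun u => u ≠ 0 ∧ u ∈ W)).card + 1 : ℕ) : ℝ) := by
    rw [h2]
  push_cast at h5
  linarith

theorem gc : S_GC := by
  intro F E _ _ _ _ _ k _ v hv
  have h1 : ∀ u ∈ (Finset.univ : Finset E).filter (fun u => u ≠ 0),
      ((Gr F E k).filter (fun W => u ∈ W)).card = ((Gr F E k).filter (fun W => v ∈ W)).card := by
    intro u hu
    exact cnt_eq F E k (Finset.mem_filter.1 hu).2 hv
  have h2 : ∑ u ∈ (Finset.univ : Finset E).filter (fun u => u ≠ 0),
      (((Gr F E k).filter (fun W => u ∈ W)).card : ℝ) =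
      (((Finset.univ : Finset E).filter (fun u => u ≠ 0)).card : ℝ) *
        (((Gr F E k).filter (fun W => v ∈ W)).card : ℝ) := by
    rw [Finset.sum_congr rfl (fun u hu => by rw [h1 u hu]), Finset.sum_const, nsmul_eq_mul]
  have h3 : ∑ u ∈ (Finset.univ : Finset E).filter (fun u => u ≠ 0),
      (((Gr F E k).filter (fun W => u ∈ W)).card : ℝ) =
      ∑ W ∈ Gr F E k, (((Finset.univ : Finset E).filter (fun u => u ≠ 0 ∧ u ∈ W)).card : ℝ) := by
    have e1 : ∀ u : E, (((Gr F E k).filter (fun W => u ∈ W)).card : ℝ) =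
        ∑ W ∈ Gr F E k, if u ∈ W then (1 : ℝ) else 0 := by
      intro u
      rw [Finset.sum_boole]
    have e2 : ∀ W : Submodule F E,
        (((Finset.univ : Finset E).filter (fun u => u ≠ 0 ∧ u ∈ W)).card : ℝ) =
        ∑ u ∈ (Finset.univ : Finset E).filter (fun u => u ≠ 0), if u ∈ W then (1 : ℝ) else 0 := by
      intro W
      rw [Finset.sum_boole, Finset.filter_filter]
    rw [Finset.sum_congr rfl (fun u _ => e1 u), Finset.sum_congr rfl (fun W _ => e2 W),
      Finset.sum_comm]
  have h4 : ∑ W ∈ Gr F E k, (((Finset.univ : Finset E).filter (fun u => u ≠ 0 ∧ u ∈ W)).card : ℝ) =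
      ((Gr F E k).card : ℝ) * ((Fintype.card F : ℝ) ^ k - 1) := by
    rw [Finset.sum_congr rfl (g := fun _ => (Fintype.card F : ℝ) ^ k - 1), Finset.sum_const,
      nsmul_eq_mul]
    intro W hW
    rw [card_ne]
    unfold Gr at hW
    rw [(Finset.mem_filter.1 hW).2]
  have h5 : (((Finset.univ : Finset E).filter (fun u => u ≠ 0)).card : ℝ) =
      (Fintype.card F : ℝ) ^ (Module.finrank F E) - 1 := by
    have h := card_ne F E ⊤
    rw [finrank_top] at h
    rw [← h]
    simp
  rw [← h4, ← h3, h2, h5]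
  ring

end Pool.Agent.W576.KP
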